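import Pool.Agent.helper81.UH.Spec

/-!
# uh:PCU: polynomial dependence on `t`
-/

set_option autoImplicit false

namespace Pool.Agent.UH

open Matrix Pool.Agent.H48SL Pool.Agent.UG

/-- polynomial curves of vectors -/
def PCU_V {m : ℕ} (v : ℚ → Fin m → ℚ) : Prop := ∀ i, ∃ p : Polynomial ℚ, ∀ t, v t i = p.eval t

theorem PCU_mulVec {m : ℕ} {f : ℚ → MQ m} {v : ℚ → Fin m → ℚ} (hf : PC f) (hv : PCU_V v) :
    PCU_V (fun t => f t *ᵥ v t) := by
  intro i
  choose p hp using hf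
  choose q hq using hv
  refine ⟨∑ k, p i k * q k, fun t => ?_⟩
  show (f t *ᵥ v t) i = _
  rw [Polynomial.eval_finsetSum, Matrix.mulVec, dotProduct]
  refine Finset.sum_congr rfl fun k _ => ?_
  rw [Polynomial.eval_mul, ← hp, ← hq]

theorem PCU_const {m : ℕ} (v : Fin m → ℚ) : PCU_V (fun _ => v) :=
  fun i => ⟨Polynomial.C (v i), fun t => by simp⟩

theorem PCU_sub {m : ℕ} {v w : ℚ → Fin m → ℚ} (hv : PCU_V v) (hw : PCU_V w) :
    PCU_V (fun t => v t - w t) := by
  intro i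
  obtain ⟨p, hp⟩ := hv i
  obtain ⟨q, hq⟩ := hw i
  exact ⟨p - q, fun t => by rw [Polynomial.eval_sub, ← hp, ← hq]; rfl⟩

theorem PCU_line {m : ℕ} (y w : Fin m → ℚ) : PCU_V (fun t => y + t • w) := by
  intro i
  refine ⟨Polynomial.C (y i) + Polynomial.X * Polynomial.C (w i), fun t => ?_⟩
  rw [Polynomial.eval_add, Polynomial.eval_mul, Polynomial.eval_C, Polynomial.eval_C,
    Polynomial.eval_X]
  rfl

theorem PCU_AA {n : ℕ} (X : Fin n → MQ (n + 1)) (y : Fin (n + 1) → ℚ)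
    {v : ℚ → Fin (n + 1) → ℚ} (hv : PCU_V v) : PC (fun t => AA X y (v t)) := by
  have h1 := PCU_mulVec (PC.const (NM X y).adjugate) hv
  choose p hp using h1
  have h2 : ∀ t, AA X y (v t) = ∑ j : Fin n, (p j.succ * Polynomial.C (dl X y)⁻¹).eval t • X j := by
    intro t
    unfold AA
    refine Finset.sum_congr rfl fun j _ => ?_
    rw [Polynomial.eval_mul, Polynomial.eval_C, ← hp, div_eq_mul_inv]
  have h3 : (fun t => AA X y (v t)) =
      fun t => ∑ j : Fin n, (p j.succ * Polynomial.C (dl X y)⁻¹).eval t • X j := funext h2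
  rw [h3]
  exact PC.sum Finset.univ _ fun j _ => (PC.const (X j)).smul _

theorem PCU_EX {m : ℕ} (N : ℕ) {f : ℚ → MQ m} (hf : PC f) : PC (fun t => EX N (f t)) := by
  unfold EX
  refine PC.sum (Finset.range N) (fun i t => ((i.factorial : ℚ)⁻¹) • f t ^ i) fun i _ => ?_
  have h1 := (hf.pow i).smul (Polynomial.C ((i.factorial : ℚ)⁻¹))
  simpa only [Polynomial.eval_C] using h1

theorem PCU_neg {m : ℕ} {f : ℚ → MQ m} (hf : PC f) : PC (fun t => -(f t)) := by
  have h1 := hf.smul (Polynomial.C (-1))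
  simpa only [Polynomial.eval_C, neg_smul, one_smul] using h1

theorem PCU_zero {n : ℕ} (X : Fin n → MQ (n + 1)) (y : Fin (n + 1) → ℚ) : AA X y 0 = 0 := by
  unfold AA
  simp

theorem PCU (hEXF : EXF_stmt) : PCU_stmt := by
  intro n N 𝔞 X y w hN hX
  have hEX0 : EX N (0 : MQ (n + 1)) = 1 := (hEXF (n + 1) N 𝔞 hN 0 𝔞.zero_mem).2.2.2.2
  have hthird : ∀ i, PC (fun t : ℚ => (UPS N X y (t • w) i).1) →
      PC (fun t : ℚ => AA X y (y + t • w - (UPS N X y (t • w) i).1 *ᵥ y)) := by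
    intro i h
    exact PCU_AA X y (PCU_sub (PCU_line y w) (PCU_mulVec h (PCU_const y)))
  have h12 : ∀ i, PC (fun t : ℚ => (UPS N X y (t • w) i).1) ∧
      PC (fun t : ℚ => (UPS N X y (t • w) i).2) := by
    intro i
    induction i with
    | zero => exact ⟨PC.const 1, PC.const 1⟩
    | succ i ih =>
      have h3 := hthird i ih.1
      exact ⟨ih.1.mul (PCU_EX N h3), (PCU_EX N (PCU_neg h3)).mul ih.2⟩
  have h0 : ∀ i, UPS N X y 0 i = (1, 1) := by
    intro i
    induction i with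
    | zero => rfl
    | succ i ih =>
      have h3 : AA X y (y + 0 - (UPS N X y 0 i).1 *ᵥ y) = 0 := by
        rw [ih, add_zero, Matrix.one_mulVec, sub_self, PCU_zero]
      show ((UPS N X y 0 i).1 * EX N (AA X y (y + 0 - (UPS N X y 0 i).1 *ᵥ y)),
        EX N (-(AA X y (y + 0 - (UPS N X y 0 i).1 *ᵥ y))) * (UPS N X y 0 i).2) = (1, 1)
      rw [h3, ih, neg_zero, hEX0, one_mul]
  intro i
  refine ⟨(h12 i).1, (h12 i).2, hthird i (h12 i).1, ?_⟩
  rw [zero_smul, h0 i, add_zero, Matrix.one_mulVec, sub_self, PCU_zero]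

end Pool.Agent.UH
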